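import Pool.Agent.Q204.WI.Tag

/-!
Countable interpolation for Weihrauch reducibility.
-/

namespace Q204.WI

open Pool.Agent.H190R3.Wei Nat.Partrec Denumerable

/-- the letter coding `n` and two lists of codes -/
def key (eF : ℕ → ℕ → ℕ) (eB : ℕ → ℕ → ℕ) (n : ℕ) : ℕ :=
  Nat.pair n (Encodable.encode (((List.range (n + 1)).map (eF n)), ((List.range (n + 1)).map (eB n))))

/-- the selection function -/
def selF (tab : List ℕ) (m k : ℕ) : ℕ :=
  if m ≤ k.unpair.1 then (ofNat (List ℕ × List ℕ) k.unpair.2).1.getD m 0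
  else tab.getD k.unpair.1 0

/-- the selection function -/
def selB (tab : List ℕ) (m k : ℕ) : ℕ :=
  if m ≤ k.unpair.1 then (ofNat (List ℕ × List ℕ) k.unpair.2).2.getD m 0
  else tab.getD k.unpair.1 0

theorem primrec_selF (tab : List ℕ) (m : ℕ) : Primrec (selF tab m) := by
  refine Primrec.ite ?_ ?_ ?_
  · exact Primrec.nat_le.comp (Primrec.const m) (Primrec.fst.comp Primrec.unpair)
  · exact (Primrec.list_getD 0).comp (Primrec.fst.comp ((Primrec.ofNat (List ℕ × List ℕ)).comp
      (Primrec.snd.comp Primrec.unpair))) (Primrec.const m)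
  · exact (Primrec.list_getD 0).comp (Primrec.const tab) (Primrec.fst.comp Primrec.unpair)

theorem primrec_selB (tab : List ℕ) (m : ℕ) : Primrec (selB tab m) := by
  refine Primrec.ite ?_ ?_ ?_
  · exact Primrec.nat_le.comp (Primrec.const m) (Primrec.fst.comp Primrec.unpair)
  · exact (Primrec.list_getD 0).comp (Primrec.snd.comp ((Primrec.ofNat (List ℕ × List ℕ)).comp
      (Primrec.snd.comp Primrec.unpair))) (Primrec.const m)
  · exact (Primrec.list_getD 0).comp (Primrec.const tab) (Primrec.fst.comp Primrec.unpair)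

theorem getD_map_range (e : ℕ → ℕ) (N i : ℕ) (h : i < N) : ((List.range N).map e).getD i 0 = e i := by
  simp [List.getD, h]

theorem selF_key (eF eB : ℕ → ℕ → ℕ) (m n : ℕ) :
    selF ((List.range m).map fun n => eF n m) m (key eF eB n) = eF n m := by
  unfold selF key
  simp only [Nat.unpair_pair, Denumerable.ofNat_encode]
  split_ifs with h
  · exact getD_map_range _ _ _ (by omega)
  · exact getD_map_range (fun n => eF n m) _ _ (by omega)

theorem selB_key (eF eB : ℕ → ℕ → ℕ) (m n : ℕ) :
    selB ((List.range m).map fun n => eB n m) m (key eF eB n) = eB n m := by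
  unfold selB key
  simp only [Nat.unpair_pair, Denumerable.ofNat_encode]
  split_ifs with h
  · exact getD_map_range _ _ _ (by omega)
  · exact getD_map_range (fun n => eB n m) _ _ (by omega)

theorem key_inj {eF eB : ℕ → ℕ → ℕ} {n n' : ℕ} (h : key eF eB n = key eF eB n') : n = n' := by
  have := congrArg (fun k => (Nat.unpair k).1) h
  simpa [key] using this

theorem tag_inj {k k' : ℕ} {x x' : ℕ → ℕ} (h : tag k x = tag k' x') : k = k' ∧ x = x' := by
  refine ⟨?_, ?_⟩
  · have := congrFun h 0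
    simpa [tag] using this
  · funext n
    have := congrFun h (n + 1)
    simpa [tag] using this

/-- The intermediate problem. -/
def mid (f : ℕ → Problem) (K : ℕ → ℕ) : Problem where
  sol y := {w | ∃ n x, y = tag (K n) x ∧ w ∈ (f n).sol x}

theorem le_mid (f : ℕ → Problem) (K : ℕ → ℕ) (hK : Function.Injective K) (n : ℕ) :
    f n ≤ mid f K := by
  refine ⟨fun σ => K n :: σ, od, isMachine_cons _ isMachine_id, isMachine_od, ?_⟩
  intro x hx
  refine ⟨tag (K n) x, maps_cons _ (maps_id x), ?_, ?_⟩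
  · obtain ⟨w, hw⟩ := hx
    exact ⟨w, n, x, rfl, hw⟩
  · rintro z ⟨n', x', he, hz⟩
    obtain ⟨h1, rfl⟩ := tag_inj he
    obtain rfl := hK h1
    exact ⟨z, hz, maps_od x z⟩

/-- **Interpolation.** -/
theorem interpolation (f h : ℕ → Problem) (hfh : ∀ n m, f n ≤ h m) :
    ∃ g : Problem, (∀ n, f n ≤ g) ∧ ∀ m, g ≤ h m := by
  choose φ ψ hφ hψ hr using hfh
  have hF : ∀ n m, ∃ e, Codes e (φ n m) := fun n m => exists_codes (hφ n m).comp
  have hB : ∀ n m, ∃ e, Codes e (ψ n m) := fun n m => exists_codes (hψ n m).comp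
  choose eF heF using hF
  choose eB heB using hB
  refine ⟨mid f (key eF eB), fun n => le_mid f _ (fun a b => key_inj) n, fun m => ?_⟩
  refine ⟨fw (selF ((List.range m).map fun n => eF n m) m),
    bw (selB ((List.range m).map fun n => eB n m) m),
    isMachine_fw (primrec_selF _ _).to_comp, isMachine_bw (primrec_selB _ _).to_comp, ?_⟩
  rintro y ⟨w, n, x, rfl, hw⟩
  obtain ⟨y, hy1, hy2, hy3⟩ := hr n m x ⟨w, hw⟩
  refine ⟨y, ?_, hy2, fun z hz => ?_⟩
  · apply maps_fw
    rw [selF_key]
    exact U_maps (heF n m) hy1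
  · obtain ⟨v, hv, hv'⟩ := hy3 z hz
    refine ⟨v, ⟨n, x, rfl, hv⟩, ?_⟩
    apply maps_bw
    rw [selB_key]
    exact U_maps (heB n m) hv'

end Q204.WI
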