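import Pool.Agent.Q204.WI.Univ

/-!
The two tagged machines: the first letter of the input selects the code of the machine to run.
-/

namespace Q204.WI

open Pool.Agent.H190R3.Wei Nat.Partrec Denumerable

/-- run the machine selected by the first letter on the rest of the word -/
def fw (s : ℕ → ℕ) (σ : List ℕ) : List ℕ :=
  match σ with
  | [] => []
  | k :: τ => U (s k) τ

theorem isMachine_fw {s : ℕ → ℕ} (hs : Computable s) : IsMachine (fw s) := by
  refine ⟨?_, ?_⟩
  · have h1 : Computable (fun σ : List ℕ => U (s (σ.getD 0 0)) σ.tail) :=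
      primrec_U.to_comp.comp (hs.comp ((Primrec.list_getD 0).to_comp.comp Computable.id
        (Computable.const 0))) Primrec.list_tail.to_comp
    have hc : Computable (fun σ : List ℕ => decide (σ.length = 0)) :=
      (PrimrecPred.decide (Primrec.eq (α := ℕ)) |>.to_comp).comp
        (Primrec.list_length.to_comp.pair (Computable.const 0))
    refine (Computable.cond hc (Computable.const []) h1).of_eq ?_
    intro σ
    cases σ <;> simp [fw]
  · intro a b h
    cases a with
    | nil => exact List.nil_prefix
    | cons k τ =>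
      obtain ⟨t, rfl⟩ := h
      exact U_mono _ _ _ (List.prefix_append τ t)

theorem maps_fw {s : ℕ → ℕ} {k : ℕ} {x y : ℕ → ℕ} (h : Maps (U (s k)) x y) :
    Maps (fw s) (tag k x) y := by
  refine ⟨fun m => ?_, fun n => ?_⟩
  · cases m with
    | zero => rfl
    | succ m =>
      rw [init_tag]
      exact h.1 m
  · obtain ⟨m, hm⟩ := h.2 n
    refine ⟨m + 1, ?_⟩
    rw [init_tag]
    exact hm

/-- run the machine selected by the first letter of the even part on the rest of the word -/
def bw (s : ℕ → ℕ) (σ : List ℕ) : List ℕ :=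
  match ev σ with
  | [] => []
  | k :: τ => U (s k) (pr τ (od σ))

theorem isMachine_bw {s : ℕ → ℕ} (hs : Computable s) : IsMachine (bw s) := by
  refine ⟨?_, ?_⟩
  · have h1 : Computable (fun σ : List ℕ => U (s ((ev σ).getD 0 0)) (pr (ev σ).tail (od σ))) :=
      primrec_U.to_comp.comp (hs.comp ((Primrec.list_getD 0).to_comp.comp isMachine_ev.comp
        (Computable.const 0))) (primrec_pr.to_comp.comp
          (Primrec.list_tail.to_comp.comp isMachine_ev.comp) isMachine_od.comp)
    have hc : Computable (fun σ : List ℕ => decide ((ev σ).length = 0)) :=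
      (PrimrecPred.decide (Primrec.eq (α := ℕ)) |>.to_comp).comp
        ((Primrec.list_length.to_comp.comp isMachine_ev.comp).pair (Computable.const 0))
    refine (Computable.cond hc (Computable.const []) h1).of_eq ?_
    intro σ
    unfold bw
    cases ev σ <;> simp
  · intro a b h
    have he := isMachine_ev.mono _ _ h
    have ho := isMachine_od.mono _ _ h
    unfold bw
    cases ha : ev a with
    | nil => exact List.nil_prefix
    | cons k τ =>
      rw [ha] at he
      obtain ⟨t, ht⟩ := he
      rw [← ht]
      exact U_mono _ _ _ (pr_mono (List.prefix_append τ t) ho)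

theorem maps_tail_ev (k : ℕ) (x z : ℕ → ℕ) :
    Maps (fun σ => (ev σ).tail) (pair (tag k x) z) x := by
  have hev := maps_ev (tag k x) z
  refine ⟨fun m => ?_, fun n => ?_⟩
  · show (ev (init (pair (tag k x) z) m)).tail =
        init x (ev (init (pair (tag k x) z) m)).tail.length
    have h1 := hev.1 m
    cases hl : (ev (init (pair (tag k x) z) m)).length with
    | zero =>
      have : ev (init (pair (tag k x) z) m) = [] := List.eq_nil_of_length_eq_zero hl
      rw [this]; rfl
    | succ j => rw [hl] at h1; rw [h1, init_tag]; simp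
  · obtain ⟨m, hm⟩ := hev.2 (n + 1)
    exact ⟨m, by simp only [List.length_tail]; omega⟩

theorem isMachine_tail_ev : IsMachine (fun σ : List ℕ => (ev σ).tail) :=
  ⟨(Primrec.list_tail.to_comp).comp isMachine_ev.comp,
    fun _ _ h => tail_mono (isMachine_ev.mono _ _ h)⟩

theorem isMachine_U (e : ℕ) : IsMachine (U e) :=
  ⟨(primrec_U.comp (Primrec.const e) Primrec.id).to_comp, U_mono e⟩

theorem maps_bw {s : ℕ → ℕ} {k : ℕ} {x z w : ℕ → ℕ} (h : Maps (U (s k)) (pair x z) w) :
    Maps (bw s) (pair (tag k x) z) w := by
  have hev := maps_ev (tag k x) z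
  have hM : IsMachine (fun σ => U (s k) (pr (ev σ).tail (od σ))) :=
    (isMachine_U _).comp' (isMachine_tail_ev.pr isMachine_od)
  have hcomp : Maps (fun σ => U (s k) (pr (ev σ).tail (od σ))) (pair (tag k x) z) w :=
    Maps.comp (isMachine_U _) (Maps.pr isMachine_tail_ev isMachine_od (maps_tail_ev k x z)
      (maps_od _ _)) h
  have hval : ∀ m, ev (init (pair (tag k x) z) m) ≠ [] →
      bw s (init (pair (tag k x) z) m) =
        U (s k) (pr (ev (init (pair (tag k x) z) m)).tail (od (init (pair (tag k x) z) m))) := by
    intro m hne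
    have h1 := hev.1 m
    cases hl : ev (init (pair (tag k x) z) m) with
    | nil => exact absurd hl hne
    | cons j τ =>
      rw [hl, List.length_cons, init_tag] at h1
      have hj : j = k := (List.cons.inj h1).1
      unfold bw
      rw [hl, hj]
      rfl
  refine ⟨fun m => ?_, fun n => ?_⟩
  · by_cases h0 : ev (init (pair (tag k x) z) m) = []
    · have h2 : bw s (init (pair (tag k x) z) m) = [] := by
        unfold bw; rw [h0]
      rw [h2]; rfl
    · rw [hval m h0]
      exact hcomp.1 m
  · obtain ⟨m1, hm1⟩ := hcomp.2 n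
    obtain ⟨m2, hm2⟩ := hev.2 1
    refine ⟨max m1 m2, ?_⟩
    have e1 : 1 ≤ (ev (init (pair (tag k x) z) (max m1 m2))).length :=
      hm2.trans (isMachine_ev.mono _ _ (init_prefix_iff_le (le_max_right m1 m2))).length_le
    rw [hval _ (by intro h; rw [h] at e1; simp at e1)]
    exact hm1.trans (hM.mono _ _ (init_prefix_iff_le (le_max_left m1 m2))).length_le

end Q204.WI
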