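import Pool.Agent.H190R3.WeiRed

/-!
A universal machine: one computable function evaluating all computable monotone word functions
from their codes, up to the induced functional on Baire space.
-/

namespace Q204.WI

open Pool.Agent.H190R3.Wei Nat.Partrec Denumerable

/-- the initial segment of length `j` -/
def tk (σ : List ℕ) (j : ℕ) : List ℕ := (List.range (min j σ.length)).map (fun i => σ.getD i 0)

theorem tk_eq (σ : List ℕ) (j : ℕ) : tk σ j = σ.take j := by
  unfold tk
  apply List.ext_getElem
  · simp
  · intro i h1 h2
    have h3 : i < σ.length := by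
      simp at h1; omega
    simp [List.getD, h3]

theorem primrec_tk : Primrec₂ tk := by
  refine Primrec.list_map (Primrec.list_range.comp ?_) ?_
  · exact Primrec.nat_min.comp Primrec.snd (Primrec.list_length.comp Primrec.fst)
  · exact (Primrec.list_getD 0).comp (Primrec.fst.comp Primrec.fst) Primrec.snd

/-- replace `o` by `w` if `w` extends `o` -/
def upd (o w : List ℕ) : List ℕ := if o.length ≤ w.length ∧ tk w o.length = o then w else o

theorem primrec_upd : Primrec₂ upd := by
  refine Primrec.ite ?_ Primrec.snd Primrec.fst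
  refine PrimrecPred.and ?_ ?_
  · exact Primrec.nat_le.comp (Primrec.list_length.comp Primrec.fst)
      (Primrec.list_length.comp Primrec.snd)
  · exact Primrec.eq.comp (primrec_tk.comp Primrec.snd (Primrec.list_length.comp Primrec.fst))
      Primrec.fst

theorem upd_of_prefix {o w : List ℕ} (h : o <+: w) : upd o w = w := by
  unfold upd
  rw [tk_eq, if_pos]
  exact ⟨h.length_le, (List.prefix_iff_eq_take.1 h).symm⟩

theorem prefix_upd (o w : List ℕ) : o <+: upd o w := by
  unfold upd
  split_ifs with h
  · rw [tk_eq] at h
    rw [List.prefix_iff_eq_take]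
    exact h.2.symm
  · exact List.prefix_rfl

theorem upd_cases (o w : List ℕ) : upd o w = w ∨ upd o w = o := by
  unfold upd
  split_ifs
  · exact Or.inl rfl
  · exact Or.inr rfl

/-- the candidate output at stage `t` -/
def cand (e : ℕ) (σ : List ℕ) (t : ℕ) : Option ℕ :=
  Code.evaln t.unpair.2 (ofNat Code e) (Encodable.encode (tk σ t.unpair.1))

/-- one step -/
def stp (e : ℕ) (σ : List ℕ) (o : List ℕ) (t : ℕ) : List ℕ :=
  Option.casesOn (cand e σ t) o (fun v => upd o (ofNat (List ℕ) v))

/-- the universal machine -/
def U (e : ℕ) (σ : List ℕ) : List ℕ := (List.range (σ.length + 1)).foldl (stp e σ) []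

theorem primrec_cand : Primrec fun p : (ℕ × List ℕ) × ℕ => cand p.1.1 p.1.2 p.2 := by
  have h := Code.primrec_evaln
  refine h.comp (Primrec.pair (Primrec.pair ?_ ?_) ?_)
  · exact Primrec.snd.comp (Primrec.unpair.comp Primrec.snd)
  · exact (Primrec.ofNat Code).comp (Primrec.fst.comp Primrec.fst)
  · exact Primrec.encode.comp (primrec_tk.comp (Primrec.snd.comp Primrec.fst)
      (Primrec.fst.comp (Primrec.unpair.comp Primrec.snd)))

theorem primrec_stp : Primrec₂ fun (p : ℕ × List ℕ) (q : List ℕ × ℕ) => stp p.1 p.2 q.1 q.2 := by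
  refine Primrec.option_casesOn (o := fun a : (ℕ × List ℕ) × (List ℕ × ℕ) =>
    cand a.1.1 a.1.2 a.2.2) ?_ ?_ ?_
  · exact primrec_cand.comp (Primrec.pair Primrec.fst (Primrec.snd.comp Primrec.snd))
  · exact Primrec.fst.comp Primrec.snd
  · exact primrec_upd.comp (Primrec.fst.comp (Primrec.snd.comp Primrec.fst))
      ((Primrec.ofNat (List ℕ)).comp Primrec.snd)

theorem primrec_U : Primrec₂ U := by
  refine Primrec.list_foldl (f := fun p : ℕ × List ℕ => List.range (p.2.length + 1))
    (g := fun _ => ([] : List ℕ)) ?_ (Primrec.const _) primrec_stp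
  exact Primrec.list_range.comp (Primrec.succ.comp (Primrec.list_length.comp Primrec.snd))

theorem prefix_stp (e : ℕ) (σ o : List ℕ) (t : ℕ) : o <+: stp e σ o t := by
  unfold stp
  cases cand e σ t with
  | none => exact List.prefix_rfl
  | some v => exact prefix_upd _ _

theorem prefix_foldl (e : ℕ) (σ : List ℕ) (l : List ℕ) (o : List ℕ) :
    o <+: l.foldl (stp e σ) o := by
  induction l generalizing o with
  | nil => exact List.prefix_rfl
  | cons t l ih => exact (prefix_stp e σ o t).trans (ih _)

theorem tk_of_prefix {σ τ : List ℕ} (h : σ <+: τ) {j : ℕ} (hj : j ≤ σ.length) :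
    tk σ j = tk τ j := by
  rw [tk_eq, tk_eq]
  obtain ⟨t, rfl⟩ := h
  rw [List.take_append_of_le_length hj]

theorem stp_congr (e : ℕ) {σ τ : List ℕ} (h : σ <+: τ) (o : List ℕ) {t : ℕ} (ht : t ≤ σ.length) :
    stp e σ o t = stp e τ o t := by
  unfold stp cand
  rw [tk_of_prefix h ((Nat.unpair_left_le t).trans ht)]

theorem foldl_congr' (e : ℕ) {σ τ : List ℕ} (h : σ <+: τ) (l : List ℕ)
    (hl : ∀ t ∈ l, t ≤ σ.length) (o : List ℕ) :
    l.foldl (stp e σ) o = l.foldl (stp e τ) o := by
  induction l generalizing o with
  | nil => rfl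
  | cons t l ih =>
    rw [List.foldl_cons, List.foldl_cons, stp_congr e h o (hl t List.mem_cons_self)]
    exact ih (fun t ht => hl t (List.mem_cons_of_mem _ ht)) _

theorem U_mono (e : ℕ) (σ τ : List ℕ) (h : σ <+: τ) : U e σ <+: U e τ := by
  unfold U
  rw [foldl_congr' e h (List.range (σ.length + 1))
    (fun t ht => by have := List.mem_range.1 ht; omega) []]
  obtain ⟨k, hk⟩ := Nat.exists_eq_add_of_le (Nat.succ_le_succ h.length_le)
  have hk' : τ.length + 1 = (σ.length + 1) + k := hk
  have hr : List.range (τ.length + 1) = List.range (σ.length + 1) ++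
      (List.range k).map (σ.length + 1 + ·) := by
    rw [hk']; exact List.range_add
  rw [hr, List.foldl_append]
  exact prefix_foldl _ _ _ _

/-- `e` is a code of the word function `φ`. -/
def Codes (e : ℕ) (φ : List ℕ → List ℕ) : Prop :=
  ∀ σ : List ℕ, Code.eval (ofNat Code e) (Encodable.encode σ) = Part.some (Encodable.encode (φ σ))

theorem exists_codes {φ : List ℕ → List ℕ} (h : Computable φ) : ∃ e, Codes e φ := by
  obtain ⟨c, hc⟩ := Code.exists_code.1 h
  refine ⟨Encodable.encode c, fun σ => ?_⟩
  rw [Denumerable.ofNat_encode, hc]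
  simp

theorem cand_codes {e : ℕ} {φ : List ℕ → List ℕ} (h : Codes e φ) (σ : List ℕ) (t v : ℕ)
    (hv : cand e σ t = some v) : ofNat (List ℕ) v = φ (σ.take t.unpair.1) := by
  unfold cand at hv
  have h1 := Code.evaln_sound hv
  rw [h, tk_eq] at h1
  simp only [Part.mem_some_iff] at h1
  rw [h1, Denumerable.ofNat_encode]

theorem U_maps {e : ℕ} {φ : List ℕ → List ℕ} (h : Codes e φ) {x y : ℕ → ℕ}
    (hm : Maps φ x y) : Maps (U e) x y := by
  -- all intermediate words are initial segments of `y`
  have hstep : ∀ m t o, o = init y o.length → stp e (init x m) o t =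
      init y (stp e (init x m) o t).length := by
    intro m t o ho
    unfold stp
    cases hc : cand e (init x m) t with
    | none => exact ho
    | some v =>
      show upd o (ofNat (List ℕ) v) = init y (upd o (ofNat (List ℕ) v)).length
      rcases upd_cases o (ofNat (List ℕ) v) with hu | hu
      · rw [hu, cand_codes h _ _ _ hc]
        obtain ⟨j, hj⟩ : ∃ j, (init x m).take t.unpair.1 = init x j := by
          rcases le_total t.unpair.1 m with hle | hle
          · refine ⟨t.unpair.1, ?_⟩
            have h1 := init_prefix_iff_le (x := x) hle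
            have h2 := List.prefix_iff_eq_take.1 h1
            rw [length_init] at h2
            exact h2.symm
          · exact ⟨m, List.take_of_length_le (by simpa using hle)⟩
        rw [hj]
        exact hm.1 j
      · rw [hu]; exact ho
  have hfold : ∀ m (l : List ℕ) o, o = init y o.length → l.foldl (stp e (init x m)) o =
      init y (l.foldl (stp e (init x m)) o).length := by
    intro m l
    induction l with
    | nil => intro o ho; exact ho
    | cons t l ih => intro o ho; exact ih _ (hstep m t o ho)
  refine ⟨fun m => hfold m _ _ rfl, fun n => ?_⟩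
  obtain ⟨j, hj⟩ := hm.2 n
  have h1 : Encodable.encode (φ (init x j)) ∈ Code.eval (ofNat Code e)
      (Encodable.encode (init x j)) := by
    rw [h]; exact Part.mem_some _
  obtain ⟨s, hs⟩ := Code.evaln_complete.1 h1
  let t := Nat.pair j s
  refine ⟨t, ?_⟩
  have hjt : j ≤ t := Nat.left_le_pair j s
  have hcand : cand e (init x t) t = some (Encodable.encode (φ (init x j))) := by
    unfold cand
    rw [tk_eq]
    have h2 : (init x t).take t.unpair.1 = init x j := by
      have h3 := init_prefix_iff_le (x := x) hjt
      have h4 := List.prefix_iff_eq_take.1 h3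
      rw [length_init] at h4
      simp only [t, Nat.unpair_pair] at h4 ⊢
      exact h4.symm
    rw [h2]
    simp only [t, Nat.unpair_pair]
    exact hs
  unfold U
  rw [length_init, List.range_succ, List.foldl_append]
  set o := (List.range t).foldl (stp e (init x t)) [] with ho
  have hoy : o = init y o.length := hfold t _ _ rfl
  show n ≤ (stp e (init x t) o t).length
  have h5 : stp e (init x t) o t = upd o (φ (init x j)) := by
    unfold stp
    rw [hcand]
    show upd o (ofNat (List ℕ) (Encodable.encode (φ (init x j)))) = _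
    rw [Denumerable.ofNat_encode]
  rw [h5]
  rcases le_total o.length (φ (init x j)).length with hle | hle
  · have h6 : o <+: φ (init x j) := by
      rw [hoy, hm.1 j]
      exact init_prefix_iff_le hle
    rw [upd_of_prefix h6]
    exact hj
  · exact (hj.trans hle).trans (prefix_upd _ _).length_le

end Q204.WI
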